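import Pool.Agent.H99.CE.Targets
import Pool.Agent.H96.Cop.Est

/-!
Module SUP: the kernel with the low boxes.
-/

set_option autoImplicit false

open MeasureTheory ProbabilityTheory Filter Topology
open scoped ENNReal
open Pool.Agent.H95 Pool.Agent.H95.Cop Pool.Agent.H96.Cop Pool.Agent.H99.CE

namespace Pool.Agent.H47.CE

theorem wq_nonneg (α : ℝ) (D : ℕ) : 0 ≤ wq α D := by
  unfold wq
  positivity

theorem wq_sum {α : ℝ} (hα : 0 < α) (L : ℕ) : ∑ i ∈ Finset.Ico 1 L, wq α i ≤ 2 + 1 / α := by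
  have h1 : ∀ n : ℕ, ∑ i ∈ Finset.Ico 1 (n + 3), wq α i =
      2 + ∑ j ∈ Finset.Ico 1 (n + 1), ((j : ℝ) + 1) ^ (-(1 + α)) := by
    intro n
    induction n with
    | zero =>
      rw [zero_add, Finset.sum_Ico_succ_top (by norm_num), Finset.sum_Ico_succ_top (by norm_num)]
      simp [wq]
      norm_num
    | succ n ih =>
      have e1 : n + 1 + 3 = (n + 3) + 1 := by ring
      rw [e1, Finset.sum_Ico_succ_top (show 1 ≤ n + 3 by omega), ih,
        Finset.sum_Ico_succ_top (show 1 ≤ n + 1 by omega), ← add_assoc]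
      have e2 : max (n + 3 - 1) 1 = n + 1 + 1 := by omega
      have e3 : wq α (n + 3) = (((n + 1 : ℕ) : ℝ) + 1) ^ (-(1 + α)) := by
        unfold wq
        rw [e2, Nat.cast_succ]
      rw [e3]
  have h2 : ∑ i ∈ Finset.Ico 1 L, wq α i ≤ ∑ i ∈ Finset.Ico 1 (L + 3), wq α i := by
    refine Finset.sum_le_sum_of_subset_of_nonneg ?_ fun i _ _ => wq_nonneg α i
    intro i hi
    rw [Finset.mem_Ico] at hi ⊢
    omega
  refine h2.trans ?_
  rw [h1]
  have h3 := sum_pow_up hα (k := 1) (N := L + 1) le_rfl (by omega)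
  have h4 : (((1 : ℕ) : ℝ) ^ (-α) - ((L + 1 : ℕ) : ℝ) ^ (-α)) / α ≤ 1 / α := by
    have h5 : (0 : ℝ) ≤ ((L + 1 : ℕ) : ℝ) ^ (-α) := by positivity
    have h6 : ((1 : ℕ) : ℝ) ^ (-α) = 1 := by simp
    rw [h6]
    gcongr
    linarith
  linarith

theorem three_pow {α : ℝ} (h1 : α ≤ 1 / 2) : (3 : ℝ) ^ (1 + α) ≤ 6 := by
  have h2 : (3 : ℝ) ^ (1 + α) ≤ (3 : ℝ) ^ (3 / 2 : ℝ) :=
    Real.rpow_le_rpow_of_exponent_le (by norm_num) (by linarith)
  refine h2.trans ?_
  have h3 : ((3 : ℝ) ^ (3 / 2 : ℝ)) ^ (2 : ℕ) = 27 := by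
    rw [← Real.rpow_natCast, ← Real.rpow_mul (by norm_num)]
    have e : (3 / 2 : ℝ) * ((2 : ℕ) : ℝ) = ((3 : ℕ) : ℝ) := by norm_num
    rw [e, Real.rpow_natCast]
    norm_num
  have h4 : (0 : ℝ) ≤ (3 : ℝ) ^ (3 / 2 : ℝ) := by positivity
  nlinarith

theorem wq_half {α : ℝ} (h0 : 0 < α) (h1 : α ≤ 1 / 2) {n D : ℕ} (hn : D ≤ 2 * n) :
    wq α n ≤ 6 * wq α D := by
  unfold wq
  obtain ⟨a, ha⟩ : ∃ a : ℕ, a = max (n - 1) 1 := ⟨_, rfl⟩
  obtain ⟨b, hb⟩ : ∃ b : ℕ, b = max (D - 1) 1 := ⟨_, rfl⟩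
  rw [← ha, ← hb]
  have ha1 : 1 ≤ a := by omega
  have hb1 : 1 ≤ b := by omega
  have hab : b ≤ 3 * a := by omega
  have ha0 : (0 : ℝ) < a := by exact_mod_cast ha1
  have hb0 : (0 : ℝ) < b := by exact_mod_cast hb1
  have hab' : (b : ℝ) ≤ 3 * a := by exact_mod_cast hab
  have h2 : (b : ℝ) ^ (1 + α) ≤ 6 * (a : ℝ) ^ (1 + α) := by
    calc (b : ℝ) ^ (1 + α) ≤ (3 * (a : ℝ)) ^ (1 + α) :=
          Real.rpow_le_rpow hb0.le hab' (by linarith)
      _ = (3 : ℝ) ^ (1 + α) * (a : ℝ) ^ (1 + α) := Real.mul_rpow (by norm_num) ha0.le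
      _ ≤ 6 * (a : ℝ) ^ (1 + α) := mul_le_mul_of_nonneg_right (three_pow h1) (by positivity)
  rw [Real.rpow_neg ha0.le, Real.rpow_neg hb0.le]
  have h3 : 0 < (a : ℝ) ^ (1 + α) := by positivity
  have h4 : 0 < (b : ℝ) ^ (1 + α) := by positivity
  rw [← div_eq_mul_inv, inv_eq_one_div, div_le_div_iff₀ h3 h4]
  linarith

theorem wq_le_one (α : ℝ) (h0 : 0 < α) (D : ℕ) : wq α D ≤ 1 := by
  unfold wq
  apply Real.rpow_le_one_of_one_le_of_nonpos
  · exact_mod_cast le_max_right _ _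
  · linarith

theorem wq_conv {α : ℝ} (h0 : 0 < α) (h1 : α ≤ 1 / 2) (D : ℕ) :
    ∑ i ∈ Finset.Ico 1 D, wq α i * wq α (D - i) ≤ 36 / α * wq α D := by
  have h2 : ∑ i ∈ Finset.Ico 1 D, wq α i * wq α (D - i) ≤
      ∑ i ∈ Finset.Ico 1 D, 6 * wq α D * (wq α i + wq α (D - i)) := by
    refine Finset.sum_le_sum fun i hi => ?_
    rw [Finset.mem_Ico] at hi
    have a1 := wq_nonneg α i
    have a2 := wq_nonneg α (D - i)
    have a3 := wq_nonneg α D
    rcases le_total D (2 * i) with h | h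
    · have h3 := wq_half h0 h1 h
      nlinarith [mul_le_mul_of_nonneg_right h3 a2, mul_nonneg a3 a1]
    · have h3 := wq_half h0 h1 (n := D - i) (D := D) (by omega)
      nlinarith [mul_le_mul_of_nonneg_left h3 a1, mul_nonneg a3 a2]
  refine h2.trans ?_
  rw [← Finset.mul_sum, Finset.sum_add_distrib]
  have h3 : ∑ i ∈ Finset.Ico 1 D, wq α (D - i) = ∑ i ∈ Finset.Ico 1 D, wq α i := by
    refine Finset.sum_nbij' (fun i => D - i) (fun i => D - i) ?_ ?_ ?_ ?_ ?_
    · intro i hi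
      rw [Finset.mem_Ico] at hi ⊢
      omega
    · intro i hi
      rw [Finset.mem_Ico] at hi ⊢
      omega
    · intro i hi
      rw [Finset.mem_Ico] at hi
      show D - (D - i) = i
      omega
    · intro i hi
      rw [Finset.mem_Ico] at hi
      show D - (D - i) = i
      omega
    · intro i _
      rfl
  rw [h3]
  have h4 := wq_sum h0 D
  have h5 : (2 : ℝ) ≤ 1 / α := by
    rw [le_div_iff₀ h0]
    linarith
  have h6 := wq_nonneg α D
  have h7 : 36 / α * wq α D = 36 * (1 / α) * wq α D := by ring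
  rw [h7]
  nlinarith [mul_nonneg h6 (sub_nonneg.2 h4), mul_nonneg h6 (sub_nonneg.2 h5)]

theorem pf_SUP : T_SUP := by
  intro α t δ P η M h0 h1 ht hδ hP hη hη1 hPδ D hD
  have hw := wq_nonneg α D
  have hconv : ENNReal.ofReal (α ^ 2 * P * t) *
      ∑ i ∈ Finset.Ico 1 D, Kd α t η M i * ld α t δ M (D - i) ≤
      ENNReal.ofReal (36 * α * P * wq α D / ((1 + δ) * t)) := by
    have h2 : ∑ i ∈ Finset.Ico 1 D, Kd α t η M i * ld α t δ M (D - i) ≤
        ENNReal.ofReal (36 / α * wq α D / ((1 + δ) * t ^ 2)) := by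
      have h3 : ∑ i ∈ Finset.Ico 1 D, Kd α t η M i * ld α t δ M (D - i) ≤
          ∑ i ∈ Finset.Ico 1 D, ENNReal.ofReal (wq α i * wq α (D - i) / ((1 + δ) * t ^ 2)) := by
        refine Finset.sum_le_sum fun i hi => ?_
        have a1 := wq_nonneg α i
        have a2 := wq_nonneg α (D - i)
        have e1 : Kd α t η M i ≤ ENNReal.ofReal (wq α i / t) := by
          unfold Kd
          apply ENNReal.ofReal_le_ofReal
          have a3 : 0 ≤ wq α i / t := by positivity
          split_ifs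
          · linarith
          · exact mul_le_of_le_one_right a3 hη1
        have e2 : ld α t δ M (D - i) ≤ ENNReal.ofReal (wq α (D - i) / ((1 + δ) * t)) := by
          unfold ld
          split_ifs
          · exact le_rfl
          · exact zero_le
        refine (mul_le_mul' e1 e2).trans ?_
        rw [← ENNReal.ofReal_mul (by positivity)]
        apply ENNReal.ofReal_le_ofReal
        refine le_of_eq ?_
        field_simp
      refine h3.trans ?_
      rw [← ENNReal.ofReal_sum_of_nonneg (fun i _ => by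
        have a1 := wq_nonneg α i
        have a2 := wq_nonneg α (D - i)
        positivity), ← Finset.sum_div]
      apply ENNReal.ofReal_le_ofReal
      exact div_le_div_of_nonneg_right (wq_conv h0 h1 D) (by positivity)
    refine (mul_le_mul' le_rfl h2).trans ?_
    rw [← ENNReal.ofReal_mul (by positivity)]
    apply ENNReal.ofReal_le_ofReal
    refine le_of_eq ?_
    field_simp
  refine (add_le_add le_rfl hconv).trans ?_
  have hden : 0 < (1 + δ) * t := by positivity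
  by_cases hDM : D ≤ M
  · unfold ld Kd
    rw [if_pos hDM, if_pos hDM, ← ENNReal.ofReal_add (by positivity) (by positivity), mul_one]
    apply ENNReal.ofReal_le_ofReal
    rw [← add_div, div_le_div_iff₀ hden ht]
    have h2 : wq α D * (36 * α * P) ≤ wq α D * δ := mul_le_mul_of_nonneg_left hPδ hw
    nlinarith
  · unfold ld Kd
    rw [if_neg hDM, if_neg hDM, zero_add]
    apply ENNReal.ofReal_le_ofReal
    rw [div_mul_eq_mul_div, div_le_div_iff₀ hden ht]
    have h2 : wq α D * (36 * α * P) ≤ wq α D * η := mul_le_mul_of_nonneg_left hη hw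
    have h3 : 0 ≤ 36 * α * P := by positivity
    have h4 : 0 ≤ η := h3.trans hη
    have h5 : 0 ≤ wq α D * η * δ := by positivity
    have h6 : 36 * α * P * wq α D ≤ wq α D * η * (1 + δ) := by nlinarith
    have h7 := mul_le_mul_of_nonneg_right h6 ht.le
    linarith

end Pool.Agent.H47.CE
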